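import Mathlib
import Pool.Agent.H65.SD.SplitW

/-!
# Disjoint unions of maderian digraphs in digraphs without many anticomplete walks
-/

set_option autoImplicit false

namespace Pool.Agent.Results.MP_a3bdf6_co.DisjointUnions

open Pool.Agent.H65.SD

/-- `G` contains a subdivision of `F`: there are branch vertices `φ u` (different for different `u`) and,
for each arc `u v` of `F`, a directed path of `G` from `φ u` to `φ v` with the list `L u v` of inner
vertices, which are not branch vertices and do not occur on the other paths. -/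
def HasSubdivision {α V : Type} (F : Digraph α) (G : Digraph V) : Prop :=
  ∃ (φ : α → V) (L : α → α → List V), Function.Injective φ ∧
    (∀ u v, F.Adj u v → List.IsChain G.Adj (φ u :: (L u v ++ [φ v])) ∧ (L u v).Nodup ∧
      ∀ x ∈ L u v, x ∉ Set.range φ) ∧
    ∀ u v u' v', F.Adj u v → F.Adj u' v' → (u, v) ≠ (u', v') → ∀ x ∈ L u v, x ∉ L u' v'

/-- All nonempty finite digraphs without loops whose outdegrees are all at least `k` contain a subdivision
of `F`. -/
def IsMader {α : Type} (F : Digraph α) (k : ℕ) : Prop :=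
  ∀ (V : Type) [Finite V] [Nonempty V] (G : Digraph V), (∀ v, ¬ G.Adj v v) →
    (∀ v, k ≤ {w : V | G.Adj v w}.ncard) → HasSubdivision F G

/-- The arcs of the disjoint union. -/
inductive UnionAdj {q : ℕ} {α : Fin (q + 1) → Type} (F : (i : Fin (q + 1)) → Digraph (α i)) :
    (Σ i, α i) → (Σ i, α i) → Prop
  | mk (i : Fin (q + 1)) (x y : α i) (h : (F i).Adj x y) : UnionAdj F ⟨i, x⟩ ⟨i, y⟩

/-- The disjoint union of the digraphs `F i`. -/
def disjointUnion {q : ℕ} {α : Fin (q + 1) → Type} (F : (i : Fin (q + 1)) → Digraph (α i)) :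
    Digraph (Σ i, α i) where
  Adj := UnionAdj F

/-- **Theorem.** Let every digraph with all outdegrees at least `k ≥ 1` contain a subdivision of `F i`, for
each of the digraphs `F 0, …, F q`, `q ≥ 1`, let `l, m ≥ 0` and put
`c = k (2 ((l + 1) k + 1) (1 + k + … + k ^ l) - 1) m`. Let `D` be a finite digraph without loops, with all
outdegrees at least `q c + k`, which has a nonempty set `W` of vertices such that `D[W]` has all outdegrees
at least `(q - 1) c + k` and no more than `m` pairwise anticomplete walks with `l` arcs (if the latter holds for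
`D` one can take all vertices). Then `D` contains a subdivision of the disjoint union of the `F i`. -/
theorem result (q l m k : ℕ) (_hq : 1 ≤ q) (hk : 1 ≤ k) (α : Fin (q + 1) → Type)
    (F : (i : Fin (q + 1)) → Digraph (α i)) (hF : ∀ i, IsMader (F i) k)
    (V : Type) [Finite V] (G : Digraph V) (W : Set V) (hl : ∀ v, ¬ G.Adj v v) (hW : W.Nonempty)
    (hm : ∀ M : Set (Fin (l + 1) → V), IsWalkPacking G W l M → M.ncard ≤ m)
    (hWo : ∀ w ∈ W, (q - 1) * cBound l k m + k ≤ {v : V | v ∈ W ∧ G.Adj w v}.ncard)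
    (ho : ∀ v, q * cBound l k m + k ≤ {w : V | G.Adj v w}.ncard) :
    HasSubdivision (disjointUnion F) G := by
  classical
  obtain ⟨P, hP, hP1, hP2⟩ := splitW V G l k k q m W hl hk hk hW hm hWo ho
  have hdeg : ∀ v, k ≤ {w : V | P w = P v ∧ G.Adj v w}.ncard := by
    intro v
    by_cases h : P v = Fin.last q
    · exact hP2 v h
    · exact hP1 v h
  -- the classes
  have hsub : ∀ i : Fin (q + 1), ∃ (φ : α i → V) (L : α i → α i → List V), Function.Injective φ ∧
      (∀ u, P (φ u) = i) ∧ (∀ u v, ∀ x ∈ L u v, P x = i) ∧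
      (∀ u v, (F i).Adj u v → List.IsChain G.Adj (φ u :: (L u v ++ [φ v])) ∧ (L u v).Nodup ∧
        ∀ x ∈ L u v, x ∉ Set.range φ) ∧
      ∀ u v u' v', (F i).Adj u v → (F i).Adj u' v' → (u, v) ≠ (u', v') →
        ∀ x ∈ L u v, x ∉ L u' v' := by
    intro i
    let Vi : Type := {v : V // P v = i}
    let Gi : Digraph Vi := ⟨fun a b => G.Adj a.1 b.1⟩
    have hne : Nonempty Vi := by
      obtain ⟨v, hv⟩ := hP i
      exact ⟨⟨v, hv⟩⟩
    obtain ⟨φ, L, h1, h2, h3⟩ := hF i Vi Gi (fun v => hl v.1) (fun v => by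
      refine (hdeg v.1).trans ?_
      have h4 : {w : V | P w = P v.1 ∧ G.Adj v.1 w} ⊆ Subtype.val '' {w : Vi | Gi.Adj v w} := by
        rintro w ⟨hw1, hw2⟩
        exact ⟨⟨w, hw1.trans v.2⟩, hw2, rfl⟩
      refine (Set.ncard_le_ncard h4 (Set.toFinite _)).trans ?_
      exact (Set.ncard_image_of_injective _ Subtype.val_injective).le)
    refine ⟨fun u => (φ u).1, fun u v => (L u v).map Subtype.val,
      Subtype.val_injective.comp h1, fun u => (φ u).2, ?_, ?_, ?_⟩
    · intro u v x hx
      obtain ⟨y, -, rfl⟩ := List.mem_map.1 hx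
      exact y.2
    · intro u v huv
      obtain ⟨h5, h6, h7⟩ := h2 u v huv
      refine ⟨?_, h6.map Subtype.val_injective, ?_⟩
      · have h8 := (List.isChain_map (R := G.Adj) (f := (Subtype.val : Vi → V))
          (l := φ u :: (L u v ++ [φ v]))).2 h5
        simpa using h8
      · intro x hx
        obtain ⟨y, hy, rfl⟩ := List.mem_map.1 hx
        rintro ⟨z, hz⟩
        exact h7 y hy ⟨z, Subtype.val_injective hz⟩
    · intro u v u' v' huv huv' hne' x hx hx'
      obtain ⟨y, hy, rfl⟩ := List.mem_map.1 hx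
      obtain ⟨y', hy', hyy⟩ := List.mem_map.1 hx'
      rw [Subtype.val_injective hyy] at hy'
      exact h3 u v u' v' huv huv' hne' y hy hy'
  choose φ L h1 h2 h3 h4 h5 using hsub
  let L' : (Σ i, α i) → (Σ i, α i) → List V := fun p p' =>
    if h : p'.1 = p.1 then L p.1 p.2 (h ▸ p'.2) else []
  have hL' : ∀ (i : Fin (q + 1)) (x y : α i), L' ⟨i, x⟩ ⟨i, y⟩ = L i x y := by
    intro i x y
    simp [L']
  refine ⟨fun p => φ p.1 p.2, L', ?_, ?_, ?_⟩
  · rintro ⟨i, x⟩ ⟨j, y⟩ hxy
    have h6 : φ i x = φ j y := hxy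
    have h7 : i = j := by
      rw [← h2 i x, ← h2 j y, h6]
    subst h7
    rw [h1 i h6]
  · rintro _ _ ⟨i, x, y, hxy⟩
    obtain ⟨h6, h7, h8⟩ := h4 i x y hxy
    rw [hL']
    refine ⟨h6, h7, ?_⟩
    rintro z hz ⟨⟨j, w⟩, hjw⟩
    have h9 : φ j w = z := hjw
    have h10 : j = i := by
      rw [← h2 j w, h9, h3 i x y z hz]
    subst h10
    exact h8 z hz ⟨w, h9⟩
  · rintro _ _ _ _ ⟨i, x, y, hxy⟩ ⟨j, x', y', hxy'⟩ hne z hz hz'
    rw [hL'] at hz hz'
    have h6 : i = j := by
      rw [← h3 i x y z hz, h3 j x' y' z hz']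
    subst h6
    refine h5 i x y x' y' hxy hxy' ?_ z hz hz'
    rintro h7
    obtain ⟨rfl, rfl⟩ := Prod.mk.inj h7
    exact hne rfl

end Pool.Agent.Results.MP_a3bdf6_co.DisjointUnions
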